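import Pool.Agent.helper69.DH.SpecR

/-!
# Module `rEXT` (row `d2:rEXT`, helper93): extension of the routing data by one level
-/

set_option autoImplicit false

open Filter Topology MeasureTheory
open scoped commutatorElement

namespace Pool.Agent.helper90.DH

open Pool.Agent.helper64.D2

theorem rEXT (hLOC : rLOC_stmt) (hFIX : rFIX_stmt) (hGEX : rGEX_stmt) : rEXT_stmt := by
  intro P S hRHY D hD
  obtain ⟨h, k, hk1, hk2⟩ := hFIX P S hRHY D hD
  have hg : ∃ g : ℤ → Finset ℕ, P.S1 ≤ S → rGK P (Function.update D.K S k) (Function.update D.G S g) S := by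
    by_cases hS : P.S1 ≤ S
    · obtain ⟨g, hg⟩ := hGEX P S hRHY D h k hS hD (hk2 hS).1 (hk2 hS).2
      exact ⟨g, fun _ => hg⟩
    · exact ⟨fun _ => ∅, fun h => absurd h hS⟩
  obtain ⟨g, hg⟩ := hg
  refine ⟨⟨Function.update D.H S h, Function.update D.K S k, Function.update D.G S g⟩, ?_, ?_⟩
  · intro s hs
    have hne : s ≠ S := by omega
    exact ⟨Function.update_of_ne hne _ _, Function.update_of_ne hne _ _, Function.update_of_ne hne _ _⟩
  · intro s hs
    rcases Nat.lt_or_ge s S with hlt | hge
    · refine (hLOC P P D _ s rfl rfl rfl rfl ?_).1 (hD s hlt)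
      intro t ht
      have hne : t ≠ S := by omega
      exact ⟨rfl, rfl, (Function.update_of_ne hne _ _).symm, (Function.update_of_ne hne _ _).symm, (Function.update_of_ne hne _ _).symm⟩
    · have hsS : s = S := by omega
      subst hsS
      refine ⟨?_, ?_⟩
      · intro hlt
        obtain ⟨e1, e2⟩ := hk1 hlt
        refine ⟨?_, ?_⟩
        · show Function.update D.H s h s = ∅
          rw [Function.update_self, e1]
        · show Function.update D.K s k s = ∅
          rw [Function.update_self, e2]
      · intro hle
        exact ⟨(hk2 hle).1, (hk2 hle).2, hg hle⟩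

end Pool.Agent.helper90.DH
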