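import Pool.Agent.helper69.DH.SpecR

/-!
# Module `rDN3` (row `d2:rDN3`, helper93): density of the cells which satisfy the enlarged rule 3
-/

set_option autoImplicit false

open Filter Topology MeasureTheory
open scoped commutatorElement

namespace Pool.Agent.helper90.DH

open Pool.Agent.helper64.D2

theorem rDN3_rTg (hBAS : rBAS_stmt) (s : ℕ) (n : ℤ) (h : |rlp s n - 1 / 2| ≤ 24 / 100) : n ∈ rTg s := by
  obtain ⟨-, -, -, -, h5, -, -, -, -, h10⟩ := hBAS
  have h' := abs_le.1 h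
  have := h10 s (rlp s n) (by linarith [h'.1]) (by linarith [h'.2])
  rwa [(h5 s n).1] at this

theorem rDN3_near (hBAS : rBAS_stmt) (P : RQ) (H K : ℕ → Finset ℤ) (s : ℕ) (h5 : 20 ≤ P.S1) (hR : RIV P H K s) (n : ℤ)
    (h : rin K (rrk 1) s (rlp s n)) : |rlp s n - 1 / 2| ≤ 24 / 100 := by
  obtain ⟨-, hK, -, hKs, -⟩ := hR
  obtain ⟨t, hts, n', hn', hd⟩ := h
  have htS : P.S1 ≤ t := by
    by_contra hcon
    rw [hK.1 t (not_le.1 hcon)] at hn'
    exact absurd hn' (Finset.notMem_empty _)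
  have hn2 := (hKs t hts n' hn').1
  obtain ⟨-, -, -, -, -, -, -, -, h9, -⟩ := hBAS
  obtain ⟨-, h6, h7⟩ := h9 t n' (by omega) hn2
  have h2 : (0 : ℝ) < 2 ^ t := by positivity
  have hrr : rrk 1 = 20 := by unfold rrk; norm_num
  rw [hrr] at hd
  have e : rlp s n - rlp t n' = (2 ^ t * rlp s n - (n' : ℝ)) / 2 ^ t := by
    unfold rlp
    field_simp
  have hpt : (20 : ℝ) / 2 ^ t ≤ 1 / 1000 := by
    have h : (2 : ℝ) ^ 20 ≤ 2 ^ t := pow_le_pow_right₀ (by norm_num) (by omega)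
    calc (20 : ℝ) / 2 ^ t ≤ 20 / 2 ^ 20 := div_le_div_of_nonneg_left (by norm_num) (by positivity) h
      _ ≤ 1 / 1000 := by norm_num
  have h8 : |rlp s n - rlp t n'| ≤ 1 / 1000 := by
    rw [e, abs_div, abs_of_pos h2]
    exact (div_le_div_of_nonneg_right hd h2.le).trans hpt
  have h8' := abs_le.1 h8
  rw [abs_le]
  constructor <;> linarith [h8'.1, h8'.2]

open Classical in
theorem rDN3_rhp_le (P : RQ) (H : ℕ → Finset ℤ) (e s : ℕ) (n : ℤ) : rhp P H e s n ≤ P.q := by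
  unfold rhp
  refine (Finset.card_filter_le _ _).trans ?_
  rw [Finset.card_range]

theorem rDN3 (hBAS : rBAS_stmt) (hDNA : rDNA_stmt) (hMXT : rMXT_stmt) : rDN3_stmt := by
  classical
  intro P S hRHY s H K hS1 hsS hRIV κ Q hQ
  have hc := hRHY.1
  have h216 : 20 ≤ P.S1 := by omega
  have hd1 : 0 < P.d1 := hc.2.2.2.2.2.2.1
  have hq1 : 1 ≤ P.q := hc.1
  have hqR : (1 : ℝ) ≤ P.q := by exact_mod_cast hq1
  set D : ℝ := P.d1 * 2 ^ (s - P.ell) with hD
  have hD0 : 0 < D := by positivity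
  -- the sets
  set A1 : Finset ℤ := (rTg s).filter (fun n => rin K (rrk 1) s (rlp s n)) with hA1
  set A2 : Finset ℤ := (rTg s).filter (fun n => |rlp s n - 1 / 2| ≤ 24 / 100 ∧ P.q ≤ 2 ^ 32 * rhp P H 1 s n) with hA2
  have hcw1 : ∀ κ' : ℤ, (rcw P.ell s κ' A1 : ℝ) ≤ 2 ^ 7 * D := by
    intro κ'
    have h := (hDNA P S hRHY s H K hS1 hsS hRIV κ' (A1.filter (fun m => m / 2 ^ (s - P.ell) = κ')) (fun m hm => (Finset.mem_filter.1 hm).2)).2.1
      (fun n hn => (Finset.mem_filter.1 (Finset.mem_filter.1 hn).1).2)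
    unfold rcw
    calc _ ≤ _ := h
      _ = 2 ^ 7 * D := by rw [hD]; ring
  have hcw2 : ∀ κ' : ℤ, (rcw P.ell s κ' A2 : ℝ) ≤ D := by
    intro κ'
    have h := (hDNA P S hRHY s H K hS1 hsS hRIV κ' (A2.filter (fun m => m / 2 ^ (s - P.ell) = κ')) (fun m hm => (Finset.mem_filter.1 hm).2)).2.2.2
      (fun n hn => (Finset.mem_filter.1 (Finset.mem_filter.1 hn).1).2)
    unfold rcw
    exact h
  -- case (a)
  have hcase1 : ((Q.filter (fun m => P.q ≤ 2 ^ 31 * rdg P K 1 s m)).card : ℝ) ≤ D / 8 := by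
    have h := hMXT P S hRHY s A1 (Q.filter (fun m => P.q ≤ 2 ^ 31 * rdg P K 1 s m)) κ (1 / 2 ^ 31) hS1 hsS (by positivity)
      (fun n hn => rDN3_near hBAS P H K s h216 hRIV n (Finset.mem_filter.1 hn).2)
      (fun κ' => (hcw1 κ').trans (by rw [mul_assoc, ← hD]; gcongr <;> norm_num))
      (fun m hm => (hQ m (Finset.mem_filter.1 hm).1).1) ?_
    · refine h.trans ?_
      have h1 := hcw1 (κ - 1)
      have h2 := hcw1 κ
      have h3 := hcw1 (κ + 1)
      have e : (2 : ℝ) ^ 104 * (1 / 2 ^ 31) ^ 2 = 2 ^ 42 := by norm_num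
      rw [e, div_le_iff₀ (by positivity)]
      nlinarith
    · intro m hm
      have hm2 := (Finset.mem_filter.1 hm).2
      have hle : rdg P K 1 s m ≤ ((Finset.range P.q).filter (fun i => rcc P s i m ∈ A1)).card := by
        unfold rdg
        apply Finset.card_le_card
        intro i hi
        rw [Finset.mem_filter] at hi ⊢
        refine ⟨hi.1, ?_⟩
        rw [hA1, Finset.mem_filter]
        exact ⟨rDN3_rTg hBAS s _ (rDN3_near hBAS P H K s h216 hRIV _ hi.2), hi.2⟩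
      have h1 : (P.q : ℝ) ≤ 2 ^ 31 * (rdg P K 1 s m : ℝ) := by exact_mod_cast hm2
      have h2 : (rdg P K 1 s m : ℝ) ≤ (((Finset.range P.q).filter (fun i => rcc P s i m ∈ A1)).card : ℝ) := by exact_mod_cast hle
      rw [one_div, ← div_eq_inv_mul, div_le_iff₀ (by positivity)]
      linarith
  -- case (b)
  have hcase2 : ((Q.filter (fun m => ¬ (P.q ≤ 2 ^ 31 * rdg P K 1 s m))).card : ℝ) ≤ D / 8 := by
    have h := hMXT P S hRHY s A2 (Q.filter (fun m => ¬ (P.q ≤ 2 ^ 31 * rdg P K 1 s m))) κ (1 / 2 ^ 32) hS1 hsS (by positivity)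
      (fun n hn => (Finset.mem_filter.1 hn).2.1)
      (fun κ' => (hcw2 κ').trans (by rw [mul_assoc, ← hD]; linarith))
      (fun m hm => (hQ m (Finset.mem_filter.1 hm).1).1) ?_
    · refine h.trans ?_
      have h1 := hcw2 (κ - 1)
      have h2 := hcw2 κ
      have h3 := hcw2 (κ + 1)
      have e : (2 : ℝ) ^ 104 * (1 / 2 ^ 32) ^ 2 = 2 ^ 40 := by norm_num
      rw [e, div_le_iff₀ (by positivity)]
      nlinarith
    · intro m hm
      have hm1 := (hQ m (Finset.mem_filter.1 hm).1).2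
      have hm2 := (Finset.mem_filter.1 hm).2
      unfold rT3 at hm1
      set R : Finset ℕ := (Finset.range P.q).filter (fun i => |rlp s (rcc P s i m) - 1 / 2| ≤ (22 + ((1 : ℕ) : ℝ)) / 100) with hR
      set N : ℕ := ((Finset.range P.q).filter (fun i => rcc P s i m ∈ A2)).card with hN
      have hb : ∀ i ∈ R, 2 ^ 32 * rhp P H 1 s (rcc P s i m) ≤ (if rcc P s i m ∈ A2 then 2 ^ 32 * P.q else 0) + P.q := by
        intro i hi
        by_cases hA : rcc P s i m ∈ A2
        · rw [if_pos hA]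
          have := rDN3_rhp_le P H 1 s (rcc P s i m)
          omega
        · rw [if_neg hA]
          have h24 : |rlp s (rcc P s i m) - 1 / 2| ≤ 24 / 100 := by
            refine (Finset.mem_filter.1 hi).2.trans ?_
            push_cast
            norm_num
          have : ¬ (P.q ≤ 2 ^ 32 * rhp P H 1 s (rcc P s i m)) := by
            intro hh
            apply hA
            rw [hA2, Finset.mem_filter]
            exact ⟨rDN3_rTg hBAS s _ h24, h24, hh⟩
          omega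
      have hsum : 2 ^ 32 * ∑ i ∈ R, rhp P H 1 s (rcc P s i m) ≤ N * (2 ^ 32 * P.q) + P.q * P.q := by
        rw [Finset.mul_sum]
        refine (Finset.sum_le_sum hb).trans ?_
        rw [Finset.sum_add_distrib, Finset.sum_const, smul_eq_mul]
        have hRc : R.card ≤ P.q := (Finset.card_filter_le _ _).trans (by rw [Finset.card_range])
        have hc1 : ∑ i ∈ R, (if rcc P s i m ∈ A2 then 2 ^ 32 * P.q else 0) ≤ N * (2 ^ 32 * P.q) := by
          rw [← Finset.sum_filter, Finset.sum_const, smul_eq_mul]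
          apply Nat.mul_le_mul_right
          rw [hN]
          apply Finset.card_le_card
          intro i hi
          rw [Finset.mem_filter] at hi ⊢
          exact ⟨(Finset.mem_filter.1 hi.1).1, hi.2⟩
        exact Nat.add_le_add hc1 (Nat.mul_le_mul_right _ hRc)
      -- real numbers
      have g1 : (P.q : ℝ) ^ 2 < 2 ^ 30 * ((∑ i ∈ R, rhp P H 1 s (rcc P s i m) : ℕ) + (P.q : ℝ) * (rdg P K 1 s m : ℝ)) := by exact_mod_cast hm1
      have g2 : (2 : ℝ) ^ 31 * (rdg P K 1 s m : ℝ) < P.q := by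
        have := not_le.1 hm2
        exact_mod_cast this
      have g3 : (2 : ℝ) ^ 32 * ((∑ i ∈ R, rhp P H 1 s (rcc P s i m) : ℕ) : ℝ) ≤ N * (2 ^ 32 * P.q) + P.q * P.q := by exact_mod_cast hsum
      have hq0 : (0 : ℝ) < P.q := by linarith
      have g4 : (P.q : ℝ) * P.q < 2 ^ 32 * N * P.q := by nlinarith
      have g5 : (P.q : ℝ) < 2 ^ 32 * N := lt_of_mul_lt_mul_right g4 hq0.le
      rw [one_div, ← div_eq_inv_mul, div_le_iff₀ (by positivity)]
      linarith
  have hsplit : Q.card = (Q.filter (fun m => P.q ≤ 2 ^ 31 * rdg P K 1 s m)).card + (Q.filter (fun m => ¬ (P.q ≤ 2 ^ 31 * rdg P K 1 s m))).card :=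
    (Finset.card_filter_add_card_filter_not (s := Q) (fun m => P.q ≤ 2 ^ 31 * rdg P K 1 s m)).symm
  have hsplit' : (Q.card : ℝ) = ((Q.filter (fun m => P.q ≤ 2 ^ 31 * rdg P K 1 s m)).card : ℝ) + ((Q.filter (fun m => ¬ (P.q ≤ 2 ^ 31 * rdg P K 1 s m))).card : ℝ) := by
    exact_mod_cast hsplit
  rw [hsplit']
  have : P.d1 / 4 * 2 ^ (s - P.ell) = D / 4 := by rw [hD]; ring
  rw [this]
  linarith

end Pool.Agent.helper90.DH
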